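import Pool.Agent.helper15.XE.SpecL
import Pool.Agent.helper85.BVP.Tau

/-!
# Project XE, row T1B (MP_5628fe_nt): the error of the sieve in the type I sums
-/

set_option autoImplicit false

namespace Pool.Agent.XE

open Finset ArithmeticFunction
open Pool.Agent.EC (tri TL wt mt Adm edg mnf tI tII tyI cvl KK yN UN)
open Pool.Agent.CH (rgh Mo ClP ClB)
open GD (kp ks)

private lemma T1B_pow (a : ℕ) (c η : ℝ) (hη : 0 < η) : ∃ N₀ : ℕ, ∀ N : ℕ, N₀ ≤ N →
    c * Real.log N ^ a ≤ (N : ℝ) ^ η := by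
  have h1 := isLittleO_log_rpow_rpow_atTop (a : ℝ) hη
  have h2 := h1.bound (show (0 : ℝ) < 1 / (|c| + 1) by positivity)
  have h3 := (tendsto_natCast_atTop_atTop (R := ℝ)).eventually h2
  obtain ⟨N₀, hN₀⟩ := Filter.eventually_atTop.1 h3
  refine ⟨max N₀ 1, fun N hN => ?_⟩
  have h4 := hN₀ N (le_trans (le_max_left _ _) hN)
  have hN1 : (1 : ℝ) ≤ N := by exact_mod_cast le_trans (le_max_right _ _) hN
  have hL : 0 ≤ Real.log N := Real.log_nonneg hN1
  rw [Real.rpow_natCast, Real.norm_of_nonneg (pow_nonneg hL a),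
    Real.norm_of_nonneg (Real.rpow_nonneg (by positivity) η)] at h4
  have h5 : c * Real.log N ^ a ≤ (|c| + 1) * Real.log N ^ a :=
    mul_le_mul_of_nonneg_right (by linarith [le_abs_self c]) (pow_nonneg hL a)
  refine h5.trans ?_
  rw [one_div, ← div_eq_inv_mul, le_div_iff₀ (by positivity)] at h4
  linarith

private lemma T1B_log {N j : ℕ} (hN : 12 ≤ N) {v : ℝ} (h : wv N v j ≠ 0) :
    v - 1 / (N : ℝ) < Real.log j ∧ Real.log j < v + 1 / (N : ℝ) := by
  have hN0 : (0 : ℝ) < (N : ℝ) := by exact_mod_cast (lt_of_lt_of_le (by norm_num) hN)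
  have h1 : 0 < 1 - |Real.log j - v| / (1 / (N : ℝ)) := by
    by_contra hcon
    push Not at hcon
    exact h (max_eq_left hcon)
  have h2 : |Real.log j - v| / (1 / (N : ℝ)) < 1 := by linarith
  rw [div_lt_one (by positivity)] at h2
  have h3 := abs_lt.1 h2
  constructor <;> linarith [h3.1, h3.2]

/-- a set of pairwise congruent numbers in the window -/
private lemma T1B_count {N : ℕ} (hN : 12 ≤ N) {v : ℝ} (hv : InB N v) (q : ℕ) (hq : 0 < q) (S : Finset ℕ)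
    (hS : ∀ j ∈ S, 0 < j ∧ wv N v j ≠ 0) (h2 : ∀ x ∈ S, ∀ y ∈ S, x ≡ y [MOD q]) :
    (#S : ℝ) ≤ 6 * (N : ℝ) ^ 2 / q + 1 := by
  have hN12 : (12 : ℝ) ≤ (N : ℝ) := by exact_mod_cast hN
  have hN0 : (0 : ℝ) < (N : ℝ) := by linarith
  have hq0 : (0 : ℝ) < (q : ℝ) := by exact_mod_cast hq
  rcases S.eq_empty_or_nonempty with he | hne
  · rw [he, Finset.card_empty]
    push_cast
    positivity
  obtain ⟨m, hm⟩ : ∃ m, m = S.min' hne := ⟨_, rfl⟩
  obtain ⟨M, hM⟩ : ∃ M, M = S.max' hne := ⟨_, rfl⟩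
  have hmS : m ∈ S := by rw [hm]; exact S.min'_mem hne
  have hMS : M ∈ S := by rw [hM]; exact S.max'_mem hne
  have hle : ∀ j ∈ S, m ≤ j ∧ j ≤ M := by
    intro j hj
    rw [hm, hM]
    exact ⟨S.min'_le j hj, S.le_max' j hj⟩
  have hsub : S ⊆ (Finset.range ((M - m) / q + 1)).image fun k => m + q * k := by
    intro j hj
    obtain ⟨h3, h4⟩ := hle j hj
    rw [Finset.mem_image]
    refine ⟨(j - m) / q, ?_, ?_⟩
    · rw [Finset.mem_range]
      have : (j - m) / q ≤ (M - m) / q := Nat.div_le_div_right (Nat.sub_le_sub_right h4 m)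
      omega
    · have h5 : q ∣ j - m := (Nat.modEq_iff_dvd' h3).1 (h2 m hmS j hj)
      show m + q * ((j - m) / q) = j
      rw [Nat.mul_div_cancel' h5]
      omega
  have hcard : #S ≤ (M - m) / q + 1 := by
    refine (Finset.card_le_card hsub).trans ?_
    refine Finset.card_image_le.trans ?_
    rw [Finset.card_range]
  have hmM : m ≤ M := (hle m hmS).2
  obtain ⟨hm0, hwm⟩ := hS m hmS
  obtain ⟨hM0, hwM⟩ := hS M hMS
  have hm0' : (0 : ℝ) < (m : ℝ) := by exact_mod_cast hm0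
  have hM0' : (0 : ℝ) < (M : ℝ) := by exact_mod_cast hM0
  have l1 := T1B_log hN hwm
  have l2 := T1B_log hN hwM
  have h1 : (M : ℝ) * (1 - 2 / N) ≤ m := by
    have h2 : 1 - 2 / (N : ℝ) ≤ (m : ℝ) / M := by
      have h3 : Real.log ((m : ℝ) / M) = Real.log m - Real.log M := Real.log_div hm0'.ne' hM0'.ne'
      have h4 : -(2 / (N : ℝ)) ≤ Real.log ((m : ℝ) / M) := by
        rw [h3]
        have e : 2 / (N : ℝ) = 1 / N + 1 / N := by ring
        rw [e]
        linarith [l1.1, l2.2]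
      have h5 : Real.log ((m : ℝ) / M) ≤ (m : ℝ) / M - 1 := Real.log_le_sub_one_of_pos (by positivity)
      linarith
    rw [le_div_iff₀ hM0'] at h2
    linarith
  have h2 : (M : ℝ) ≤ 2.7182818286 * (N : ℝ) ^ 3 := by
    have h3 : Real.log M ≤ 3 * Real.log N + 1 := by
      have h4 : (1 : ℝ) / N ≤ 1 / 12 := one_div_le_one_div_of_le (by norm_num) hN12
      have h5 := hv.2
      linarith [l2.2]
    have h6 : (M : ℝ) ≤ Real.exp (3 * Real.log N + 1) := by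
      rw [← Real.exp_log hM0']
      exact Real.exp_le_exp.2 h3
    have h7 : Real.exp (3 * Real.log N + 1) = (N : ℝ) ^ 3 * Real.exp 1 := by
      rw [Real.exp_add]
      congr 1
      have : 3 * Real.log (N : ℝ) = Real.log ((N : ℝ) ^ 3) := by
        rw [Real.log_pow]
        norm_num
      rw [this, Real.exp_log (by positivity)]
    rw [h7] at h6
    refine h6.trans ?_
    rw [mul_comm]
    exact mul_le_mul_of_nonneg_right Real.exp_one_lt_d9.le (by positivity)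
  have h3 : (M : ℝ) - m ≤ 6 * (N : ℝ) ^ 2 := by
    have h4 : (M : ℝ) - m ≤ (M : ℝ) * (2 / N) := by linarith
    calc (M : ℝ) - m ≤ (M : ℝ) * (2 / N) := h4
      _ ≤ 2.7182818286 * (N : ℝ) ^ 3 * (2 / N) := mul_le_mul_of_nonneg_right h2 (by positivity)
      _ = 5.4365636572 * (N : ℝ) ^ 2 := by
        field_simp
        norm_num
      _ ≤ 6 * (N : ℝ) ^ 2 := by
        have : 0 ≤ (N : ℝ) ^ 2 := by positivity
        linarith
  calc (#S : ℝ) ≤ (((M - m) / q + 1 : ℕ) : ℝ) := by exact_mod_cast hcard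
    _ = (((M - m) / q : ℕ) : ℝ) + 1 := by push_cast; ring
    _ ≤ ((M - m : ℕ) : ℝ) / q + 1 := by
        have : (((M - m) / q : ℕ) : ℝ) ≤ ((M - m : ℕ) : ℝ) / (q : ℝ) := Nat.cast_div_le
        linarith
    _ = ((M : ℝ) - m) / q + 1 := by rw [Nat.cast_sub hmM]
    _ ≤ 6 * (N : ℝ) ^ 2 / q + 1 := by
        have := div_le_div_of_nonneg_right h3 hq0.le
        linarith

/-- count of `k ∣ j`, `m ∣ j ± 6` -/
private lemma T1B_cnt2 {N : ℕ} (hN : 12 ≤ N) {v : ℝ} (hv : InB N v) (W : Finset ℕ)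
    (hW : ∀ j ∈ W, 7 ≤ j ∧ wv N v j ≠ 0) (k m : ℕ) (hk : 0 < k) (hm : 0 < m)
    (h30 : Nat.Coprime m 30) (h : ℕ → ℕ) (hh : (∀ j, h j = j + 6) ∨ (∀ j, h j = j - 6)) :
    (#(W.filter fun j => k ∣ j ∧ m ∣ h j) : ℝ) ≤ 6 * (N : ℝ) ^ 2 / (k * m) + 1 := by
  have h6 : ∀ j ∈ W, k ∣ j → m ∣ h j → Nat.gcd k m ∣ 6 := by
    intro j hj hkj hmj
    have h7 := (hW j hj).1
    have hg1 : Nat.gcd k m ∣ j := (Nat.gcd_dvd_left _ _).trans hkj
    have hg2 : Nat.gcd k m ∣ h j := (Nat.gcd_dvd_right _ _).trans hmj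
    rcases hh with h8 | h8
    · rw [h8] at hg2
      exact (Nat.dvd_add_right hg1).mp hg2
    · rw [h8] at hg2
      have := Nat.dvd_sub hg1 hg2
      have h9 : j - (j - 6) = 6 := by omega
      rwa [h9] at this
  by_cases hc : Nat.Coprime k m
  · have := T1B_count hN hv (k * m) (Nat.mul_pos hk hm)
      (W.filter fun j => k ∣ j ∧ m ∣ h j) (fun j hj => by
        have := hW j (mem_filter.1 hj).1
        exact ⟨by omega, this.2⟩) (by
        intro x hx y hy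
        rw [mem_filter] at hx hy
        have hx7 := (hW x hx.1).1
        have hy7 := (hW y hy.1).1
        apply (Nat.modEq_and_modEq_iff_modEq_mul hc).1
        refine ⟨((Nat.modEq_zero_iff_dvd).2 hx.2.1).trans ((Nat.modEq_zero_iff_dvd).2 hy.2.1).symm, ?_⟩
        have h10 : h x ≡ h y [MOD m] :=
          ((Nat.modEq_zero_iff_dvd).2 hx.2.2).trans ((Nat.modEq_zero_iff_dvd).2 hy.2.2).symm
        rcases hh with h8 | h8
        · rw [h8, h8] at h10
          exact Nat.ModEq.add_right_cancel' 6 h10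
        · rw [h8, h8] at h10
          have := h10.add_right 6
          rwa [Nat.sub_add_cancel (by omega), Nat.sub_add_cancel (by omega)] at this)
    rw [Nat.cast_mul] at this
    exact this
  · have : W.filter (fun j => k ∣ j ∧ m ∣ h j) = ∅ := by
      rw [filter_eq_empty_iff]
      rintro j hj ⟨h1, h2⟩
      have h3 := h6 j hj h1 h2
      apply hc
      have h4 : Nat.gcd k m ∣ Nat.gcd m 30 :=
        Nat.dvd_gcd (Nat.gcd_dvd_right _ _) (h3.trans (by norm_num))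
      rw [h30] at h4
      exact Nat.dvd_one.1 h4
    rw [this]
    simp only [card_empty, Nat.cast_zero]
    positivity

/-- one pair `(d, e)` -/
private lemma T1B_pair {N : ℕ} (hN : 12 ≤ N) {v : ℝ} (hv : InB N v) (W : Finset ℕ)
    (hW : ∀ j ∈ W, 7 ≤ j ∧ wv N v j ≠ 0) (Q V : ℝ) (hQ : 1 ≤ Q) (hV : 0 ≤ V) (d e : ℕ) (hd : 1 ≤ d) (he : 1 ≤ e)
    (h₀ : ℕ → ℕ) (hh : (∀ j, h₀ j = j + 6) ∨ (∀ j, h₀ j = j - 6)) :
    ∑ j ∈ W with d * e ∣ j, ((#((Mo Q).filter fun m => m ∣ h₀ j) : ℝ) + V) ≤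
      6 * (N : ℝ) ^ 2 / (d * e) * (1 + Real.log Q + V) + (Q + V) := by
  have hde : 0 < d * e := Nat.mul_pos hd he
  have hde0 : (0 : ℝ) < (d : ℝ) * e := by exact_mod_cast hde
  rw [sum_add_distrib]
  have hMo : ∀ m ∈ Mo Q, 1 ≤ m ∧ (m : ℝ) ≤ Q ∧ Nat.Coprime m 30 := by
    intro m hm
    unfold Mo at hm
    rw [mem_filter, mem_Icc] at hm
    exact ⟨hm.1.1, (Nat.le_floor_iff (by linarith)).1 hm.1.2, hm.2⟩
  have hcardMo : (#(Mo Q) : ℝ) ≤ Q := by
    have h1 : #(Mo Q) ≤ #(Icc 1 ⌊Q⌋₊) := card_le_card (filter_subset _ _)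
    rw [Nat.card_Icc, Nat.add_sub_cancel] at h1
    exact le_trans (by exact_mod_cast h1) (Nat.floor_le (by linarith))
  have h1 : ∑ j ∈ W with d * e ∣ j, (#((Mo Q).filter fun m => m ∣ h₀ j) : ℝ) ≤
      6 * (N : ℝ) ^ 2 / (d * e) * (1 + Real.log Q) + Q := by
    have h2 : ∑ j ∈ W with d * e ∣ j, (#((Mo Q).filter fun m => m ∣ h₀ j) : ℝ) =
        ∑ m ∈ Mo Q, (#(W.filter fun j => d * e ∣ j ∧ m ∣ h₀ j) : ℝ) := by
      have h3 : ∀ j ∈ W.filter (fun j => d * e ∣ j),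
          (#((Mo Q).filter fun m => m ∣ h₀ j) : ℝ) = ∑ m ∈ Mo Q, if m ∣ h₀ j then (1 : ℝ) else 0 := by
        intro j _
        rw [← sum_filter, sum_const, nsmul_eq_mul, mul_one]
      rw [sum_congr rfl h3, sum_comm]
      refine sum_congr rfl fun m _ => ?_
      rw [← sum_filter, filter_filter, sum_const, nsmul_eq_mul, mul_one]
    rw [h2]
    calc ∑ m ∈ Mo Q, (#(W.filter fun j => d * e ∣ j ∧ m ∣ h₀ j) : ℝ)
        ≤ ∑ m ∈ Mo Q, (6 * (N : ℝ) ^ 2 / (d * e) * (1 / (m : ℝ)) + 1) := by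
          refine sum_le_sum fun m hm => ?_
          obtain ⟨hm1, hm2, hm3⟩ := hMo m hm
          have := T1B_cnt2 hN hv W hW (d * e) m hde hm1 hm3 h₀ hh
          have hm0 : (0 : ℝ) < m := by exact_mod_cast hm1
          refine this.trans (le_of_eq ?_)
          push_cast
          field_simp
      _ = 6 * (N : ℝ) ^ 2 / (d * e) * ∑ m ∈ Mo Q, 1 / (m : ℝ) + #(Mo Q) := by
          rw [sum_add_distrib, ← mul_sum, sum_const, nsmul_eq_mul, mul_one]
      _ ≤ 6 * (N : ℝ) ^ 2 / (d * e) * (1 + Real.log Q) + Q := by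
          refine add_le_add (mul_le_mul_of_nonneg_left ?_ (by positivity)) hcardMo
          calc ∑ m ∈ Mo Q, 1 / (m : ℝ) ≤ ∑ m ∈ Ioc 0 ⌊Q⌋₊, 1 / (m : ℝ) := by
                refine sum_le_sum_of_subset_of_nonneg ?_ fun _ _ _ => by positivity
                intro m hm
                unfold Mo at hm
                rw [mem_filter, mem_Icc] at hm
                rw [mem_Ioc]
                exact ⟨by omega, hm.1.2⟩
            _ ≤ 1 + Real.log (⌊Q⌋₊ : ℕ) := Pool.Agent.helper85.BVP.harm_le _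
            _ ≤ 1 + Real.log Q := by
                have : Real.log ((⌊Q⌋₊ : ℕ) : ℝ) ≤ Real.log Q := by
                  apply Real.log_le_log
                  · have : 1 ≤ ⌊Q⌋₊ := Nat.le_floor (by exact_mod_cast hQ)
                    exact_mod_cast this
                  · exact Nat.floor_le (by linarith)
                linarith
  have h4 : ∑ j ∈ W with d * e ∣ j, V ≤ (6 * (N : ℝ) ^ 2 / (d * e) + 1) * V := by
    rw [sum_const, nsmul_eq_mul]
    refine mul_le_mul_of_nonneg_right ?_ hV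
    have := T1B_count hN hv (d * e) hde (W.filter fun j => d * e ∣ j) (fun j hj => by
      have := hW j (mem_filter.1 hj).1
      exact ⟨by omega, this.2⟩) (by
      intro x hx y hy
      rw [mem_filter] at hx hy
      exact ((Nat.modEq_zero_iff_dvd).2 hx.2).trans ((Nat.modEq_zero_iff_dvd).2 hy.2).symm)
    rw [Nat.cast_mul] at this
    exact this
  calc _ ≤ (6 * (N : ℝ) ^ 2 / (d * e) * (1 + Real.log Q) + Q) + (6 * (N : ℝ) ^ 2 / (d * e) + 1) * V :=
        add_le_add h1 h4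
    _ = _ := by ring

theorem T1B (h1 : Pool.Agent.EC.KKS_stmt) (h2 : WVB_stmt) (h3 : MLW_stmt) : T1B_stmt := by
  classical
  intro A B C
  obtain ⟨C₁, hC₁, -, hKKS⟩ := h1
  obtain ⟨N₁, hN₁12, hN₁⟩ := h2
  set c₂ : ℝ := 2 * (1 + C₁) with hc₂
  have hc₂p : 0 < c₂ := by positivity
  obtain ⟨N₃, hN₃⟩ := T1B_pow (A + C + 2 * B + 1) (2 * (1 + c₂)) (1 / 8) (by norm_num)
  obtain ⟨N₄, hN₄⟩ := T1B_pow C 1 1 one_pos
  refine ⟨A + 2 * B + 6, max N₁ (max (max N₃ N₄) ⌈Real.exp (10 + 36 * c₂)⌉₊),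
    fun N hN v hv r hr R hR hRL D' hDle' hS => ?_⟩
  have hNa : N₁ ≤ N := le_trans (le_max_left _ _) hN
  have hNc : N₃ ≤ N := le_trans (le_trans (le_max_left _ _) (le_trans (le_max_left _ _) (le_max_right _ _))) hN
  have hNd : N₄ ≤ N := le_trans (le_trans (le_max_right _ _) (le_trans (le_max_left _ _) (le_max_right _ _))) hN
  have hNe : ⌈Real.exp (10 + 36 * c₂)⌉₊ ≤ N :=
    le_trans (le_trans (le_max_right _ _) (le_max_right _ _)) hN
  have hN12 : 12 ≤ N := hN₁12.trans hNa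
  have hx1 : (1 : ℝ) ≤ (N : ℝ) := by exact_mod_cast (by omega : 1 ≤ N)
  have hx0 : (0 : ℝ) < (N : ℝ) := by linarith
  have hL : 10 + 36 * c₂ ≤ Real.log N := by
    rw [Real.le_log_iff_exp_le hx0]
    exact le_trans (Nat.le_ceil _) (by exact_mod_cast hNe)
  have hP3 := hN₃ N hNc
  have hP4 := hN₄ N hNd
  set L := Real.log N with hLdef
  have hL10 : 10 ≤ L := by linarith [hc₂p]
  have hL1 : 1 ≤ L := by linarith
  have hL0 : 0 < L := by linarith
  rw [Real.rpow_one, one_mul] at hP4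
  obtain ⟨Q, hQdef⟩ : ∃ Q, Q = QV N := ⟨_, rfl⟩
  rw [← hQdef]
  have hQdef' : Q = (N : ℝ) ^ (104 / 125 : ℝ) := hQdef
  have hQ1 : 1 ≤ Q := by rw [hQdef']; exact Real.one_le_rpow hx1 (by norm_num)
  have hQx : Q ≤ N := by
    rw [hQdef']
    calc (N : ℝ) ^ (104 / 125 : ℝ) ≤ (N : ℝ) ^ (1 : ℝ) := Real.rpow_le_rpow_of_exponent_le hx1 (by norm_num)
      _ = N := Real.rpow_one _
  have hlogQ0 : 0 ≤ Real.log Q := Real.log_nonneg hQ1
  have hlogQ : Real.log Q ≤ L := Real.log_le_log (by linarith) hQx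
  obtain ⟨U, hUdef⟩ : ∃ U, U = UN C N := ⟨_, rfl⟩
  rw [← hUdef]
  have hU : (U : ℝ) ≤ N * L ^ C := by rw [hUdef]; exact Nat.floor_le (by positivity)
  have hU2 : (U : ℝ) ≤ (N : ℝ) ^ 2 := by
    refine hU.trans ?_
    rw [pow_two]
    exact mul_le_mul_of_nonneg_left hP4 hx0.le
  have hcardle : (#D' : ℝ) ≤ (N : ℝ) ^ (1 / 5000 : ℝ) := by
    have h6 : D' ⊆ Icc 1 ⌊(N : ℝ) ^ (1 / 5000 : ℝ)⌋₊ := by
      intro e he
      rw [mem_Icc]
      exact ⟨(hDle' e he).1, Nat.le_floor (hDle' e he).2⟩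
    have h7 := card_le_card h6
    rw [Nat.card_Icc, Nat.add_sub_cancel] at h7
    exact le_trans (by exact_mod_cast h7) (Nat.floor_le (by positivity))
  obtain ⟨W, hWdef⟩ : ∃ W, W = (Z3 N).filter fun j => wv N v j ≠ 0 := ⟨_, rfl⟩
  have hwb := (hN₁ N hNa).1 v hv
  have hW : ∀ j ∈ W, 7 ≤ j ∧ wv N v j ≠ 0 := by
    intro j hj
    rw [hWdef, mem_filter] at hj
    refine ⟨?_, hj.2⟩
    have h6 := ((hwb.2.2.2 j).2.2.1 hj.2).1
    have : 12 ^ 3 ≤ N ^ 3 := Nat.pow_le_pow_left hN12 3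
    omega
  -- the class function
  obtain ⟨h₀, hh₀, hKs⟩ : ∃ h₀ : ℕ → ℕ, ((∀ j, h₀ j = j + 6) ∨ (∀ j, h₀ j = j - 6)) ∧
      ∀ j ∈ W, ∑ m ∈ Mo Q, |KK R (30 * m) (r m) j| ≤
        (#((Mo Q).filter fun m => m ∣ h₀ j) : ℝ) + C₁ * (R : ℝ) ^ 2 * (1 + Real.log Q) := by
    rcases hr with hr | hr
    · exact ⟨fun j => j + 6, Or.inl fun j => rfl, fun j _ => (hKKS Q R j r hQ1 hR).1 hr⟩
    · exact ⟨fun j => j - 6, Or.inr fun j => rfl, fun j hj => (hKKS Q R j r hQ1 hR).2 hr (hW j hj).1⟩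
  obtain ⟨V, hV⟩ : ∃ V, V = C₁ * (R : ℝ) ^ 2 * (1 + Real.log Q) := ⟨_, rfl⟩
  rw [← hV] at hKs
  have hV0 : 0 ≤ V := by rw [hV]; positivity
  have hRL2 : (R : ℝ) ^ 2 ≤ L ^ (2 * B) := by
    rw [mul_comm, pow_mul]
    exact pow_le_pow_left₀ (Nat.cast_nonneg _) hRL 2
  have hL2B : 1 ≤ L ^ (2 * B) := one_le_pow₀ hL1
  have hV1 : 1 + Real.log Q + V ≤ c₂ * L ^ (2 * B + 1) := by
    have h6 : V ≤ C₁ * L ^ (2 * B) * (2 * L) := by
      rw [hV]
      exact mul_le_mul (mul_le_mul_of_nonneg_left hRL2 hC₁.le) (by linarith) (by linarith) (by positivity)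
    have h7 : 1 + Real.log Q ≤ 2 * L * L ^ (2 * B) := by
      calc 1 + Real.log Q ≤ 2 * L := by linarith
        _ = 2 * L * 1 := by ring
        _ ≤ 2 * L * L ^ (2 * B) := mul_le_mul_of_nonneg_left hL2B (by linarith)
    calc 1 + Real.log Q + V ≤ 2 * L * L ^ (2 * B) + C₁ * L ^ (2 * B) * (2 * L) := add_le_add h7 h6
      _ = c₂ * L ^ (2 * B + 1) := by rw [hc₂, pow_succ]; ring
  -- exchange of the sums
  have hswap : ∑ j ∈ Z3 N, (∑ d ∈ j.divisors with d ≤ U, (#(D'.filter fun e => e ∣ j / d) : ℝ)) * wv N v j *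
      ∑ m ∈ Mo Q, |KK R (30 * m) (r m) j| ≤
      ∑ d ∈ Ioc 0 U, ∑ e ∈ D', ∑ j ∈ W with d * e ∣ j, ((#((Mo Q).filter fun m => m ∣ h₀ j) : ℝ) + V) := by
    calc ∑ j ∈ Z3 N, (∑ d ∈ j.divisors with d ≤ U, (#(D'.filter fun e => e ∣ j / d) : ℝ)) * wv N v j *
          ∑ m ∈ Mo Q, |KK R (30 * m) (r m) j|
        = ∑ j ∈ W, (∑ d ∈ j.divisors with d ≤ U, (#(D'.filter fun e => e ∣ j / d) : ℝ)) * wv N v j *
          ∑ m ∈ Mo Q, |KK R (30 * m) (r m) j| := by
          rw [hWdef, sum_filter]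
          refine sum_congr rfl fun j _ => ?_
          split_ifs with h6
          · rfl
          · push Not at h6
            rw [h6, mul_zero, zero_mul]
      _ ≤ ∑ j ∈ W, ∑ d ∈ (Ioc 0 U).filter (fun d => d ∣ j), ∑ e ∈ D', if e ∣ j / d then
            ((#((Mo Q).filter fun m => m ∣ h₀ j) : ℝ) + V) else 0 := by
          refine sum_le_sum fun j hj => ?_
          have hj7 := (hW j hj).1
          have hset : j.divisors.filter (fun d => d ≤ U) = (Ioc 0 U).filter (fun d => d ∣ j) := by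
            ext d
            simp only [mem_filter, Nat.mem_divisors, mem_Ioc]
            constructor
            · rintro ⟨⟨h6, _⟩, h8⟩
              exact ⟨⟨Nat.pos_of_dvd_of_pos h6 (by omega), h8⟩, h6⟩
            · rintro ⟨⟨_, h7⟩, h8⟩
              exact ⟨⟨h8, by omega⟩, h7⟩
          rw [hset]
          have h6 : ∀ d ∈ (Ioc 0 U).filter (fun d => d ∣ j), (∑ e ∈ D', if e ∣ j / d then
            ((#((Mo Q).filter fun m => m ∣ h₀ j) : ℝ) + V) else 0) =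
              (#(D'.filter fun e => e ∣ j / d) : ℝ) * ((#((Mo Q).filter fun m => m ∣ h₀ j) : ℝ) + V) := by
            intro d _
            rw [← sum_filter, sum_const, nsmul_eq_mul]
          rw [sum_congr rfl h6, ← sum_mul]
          have h7 := hwb.2.2.2 j
          refine mul_le_mul ?_ (hKs j hj) (sum_nonneg fun _ _ => abs_nonneg _)
            (sum_nonneg fun _ _ => Nat.cast_nonneg _)
          calc _ ≤ (∑ d ∈ (Ioc 0 U).filter (fun d => d ∣ j), (#(D'.filter fun e => e ∣ j / d) : ℝ)) * 1 :=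
                mul_le_mul_of_nonneg_left h7.2.1 (sum_nonneg fun _ _ => Nat.cast_nonneg _)
            _ = _ := mul_one _
      _ = ∑ d ∈ Ioc 0 U, ∑ e ∈ D', ∑ j ∈ W with d * e ∣ j, ((#((Mo Q).filter fun m => m ∣ h₀ j) : ℝ) + V) := by
          have h6 : ∀ j ∈ W, (∑ d ∈ (Ioc 0 U).filter (fun d => d ∣ j), ∑ e ∈ D', if e ∣ j / d then
              ((#((Mo Q).filter fun m => m ∣ h₀ j) : ℝ) + V) else 0) =
              ∑ d ∈ Ioc 0 U, ∑ e ∈ D', if d * e ∣ j then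
                ((#((Mo Q).filter fun m => m ∣ h₀ j) : ℝ) + V) else 0 := by
            intro j _
            rw [sum_filter]
            refine sum_congr rfl fun d _ => ?_
            split_ifs with h7
            · refine sum_congr rfl fun e _ => ?_
              by_cases h8 : e ∣ j / d
              · rw [if_pos h8, if_pos ((Nat.dvd_div_iff_mul_dvd h7).1 h8)]
              · rw [if_neg h8, if_neg fun h9 => h8 ((Nat.dvd_div_iff_mul_dvd h7).2 h9)]
            · symm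
              refine sum_eq_zero fun e _ => ?_
              rw [if_neg fun h9 => h7 ((Dvd.intro _ rfl).trans h9)]
          rw [sum_congr rfl h6, sum_comm]
          refine sum_congr rfl fun d _ => ?_
          rw [sum_comm]
          refine sum_congr rfl fun e _ => ?_
          rw [← sum_filter]
  refine hswap.trans ?_
  obtain ⟨W₀, hW₀⟩ : ∃ W₀, W₀ = c₂ * L ^ (2 * B + 1) := ⟨_, rfl⟩
  rw [← hW₀] at hV1
  have hW0 : 0 ≤ W₀ := by rw [hW₀]; positivity
  have hVW : V ≤ W₀ := by linarith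
  have hQV : Q + V ≤ (1 + c₂) * L ^ (2 * B + 1) * (N : ℝ) ^ (104 / 125 : ℝ) := by
    have hsq1 : 1 ≤ (N : ℝ) ^ (104 / 125 : ℝ) := Real.one_le_rpow hx1 (by norm_num)
    have hLp1 : 1 ≤ L ^ (2 * B + 1) := one_le_pow₀ hL1
    calc Q + V ≤ 1 * 1 * (N : ℝ) ^ (104 / 125 : ℝ) + c₂ * L ^ (2 * B + 1) * 1 := by
          rw [hW₀] at hVW
          linarith
      _ ≤ 1 * L ^ (2 * B + 1) * (N : ℝ) ^ (104 / 125 : ℝ) + c₂ * L ^ (2 * B + 1) * (N : ℝ) ^ (104 / 125 : ℝ) := by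
        gcongr
      _ = _ := by ring
  have hharm : ∑ d ∈ Ioc 0 U, 1 / (d : ℝ) ≤ 3 * L := by
    refine (Pool.Agent.helper85.BVP.harm_le U).trans ?_
    have : Real.log U ≤ 2 * L := by
      rcases Nat.eq_zero_or_pos U with h8 | h8
      · rw [h8]; simp; positivity
      · calc Real.log U ≤ Real.log ((N : ℝ) ^ 2) := Real.log_le_log (by exact_mod_cast h8) hU2
          _ = 2 * L := by rw [Real.log_pow, ← hLdef]; norm_num
    linarith
  calc ∑ d ∈ Ioc 0 U, ∑ e ∈ D', ∑ j ∈ W with d * e ∣ j, ((#((Mo Q).filter fun m => m ∣ h₀ j) : ℝ) + V)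
      ≤ ∑ d ∈ Ioc 0 U, ∑ e ∈ D', (6 * (N : ℝ) ^ 2 * W₀ * ((1 / (d : ℝ)) * (1 / e)) +
          (1 + c₂) * L ^ (2 * B + 1) * (N : ℝ) ^ (104 / 125 : ℝ)) := by
        refine sum_le_sum fun d hd => ?_
        have hd1 := mem_Ioc.1 hd
        have hd0 : (0 : ℝ) < d := by exact_mod_cast hd1.1
        refine sum_le_sum fun e he => ?_
        have he0 : (0 : ℝ) < e := by exact_mod_cast (hDle' e he).1
        refine (T1B_pair hN12 hv W hW Q V hQ1 hV0 d e hd1.1 (hDle' e he).1 h₀ hh₀).trans ?_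
        refine add_le_add ?_ hQV
        calc 6 * (N : ℝ) ^ 2 / (d * e) * (1 + Real.log Q + V) ≤ 6 * (N : ℝ) ^ 2 / (d * e) * W₀ :=
              mul_le_mul_of_nonneg_left hV1 (by positivity)
          _ = 6 * (N : ℝ) ^ 2 * W₀ * ((1 / (d : ℝ)) * (1 / e)) := by field_simp
    _ = 6 * (N : ℝ) ^ 2 * W₀ * ((∑ d ∈ Ioc 0 U, 1 / (d : ℝ)) * ∑ e ∈ D', 1 / (e : ℝ)) +
          U * (#D' * ((1 + c₂) * L ^ (2 * B + 1) * (N : ℝ) ^ (104 / 125 : ℝ))) := by
        have e9 : ∀ d ∈ Ioc 0 U, ∑ e ∈ D', (6 * (N : ℝ) ^ 2 * W₀ * ((1 / (d : ℝ)) * (1 / e)) +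
            (1 + c₂) * L ^ (2 * B + 1) * (N : ℝ) ^ (104 / 125 : ℝ)) =
            6 * (N : ℝ) ^ 2 * W₀ * (∑ e ∈ D', 1 / (e : ℝ)) * (1 / (d : ℝ)) +
              #D' * ((1 + c₂) * L ^ (2 * B + 1) * (N : ℝ) ^ (104 / 125 : ℝ)) := by
          intro d _
          rw [sum_add_distrib, ← mul_sum, ← mul_sum, sum_const, nsmul_eq_mul]
          ring
        rw [sum_congr rfl e9, sum_add_distrib, ← mul_sum, sum_const, nsmul_eq_mul, Nat.card_Ioc, Nat.sub_zero]
        ring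
    _ ≤ 6 * (N : ℝ) ^ 2 * W₀ * ((3 * L) * (1 / L ^ (A + 2 * B + 6))) +
          (N * L ^ C) * ((N : ℝ) ^ (1 / 5000 : ℝ) * ((1 + c₂) * L ^ (2 * B + 1) * (N : ℝ) ^ (104 / 125 : ℝ))) := by
        gcongr
    _ = 18 * c₂ * (N : ℝ) ^ 2 * L ^ (2 * B + 2) / L ^ (A + 2 * B + 6) +
          (1 + c₂) * L ^ (C + 2 * B + 1) * (N * (N : ℝ) ^ (1 / 5000 : ℝ) * (N : ℝ) ^ (104 / 125 : ℝ)) := by
        rw [hW₀]
        ring
    _ ≤ (N : ℝ) ^ 2 / L ^ A / 2 + (N : ℝ) ^ 2 / L ^ A / 2 := by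
        refine add_le_add ?_ ?_
        · have h6 : L ^ (A + 2 * B + 6) = L ^ A * L ^ (2 * B + 2) * L ^ 4 := by ring
          have hp : 0 < L ^ A := pow_pos hL0 A
          have hp2 : 0 < L ^ (2 * B + 2) := pow_pos hL0 _
          have hp4 : L ≤ L ^ 4 := le_self_pow₀ hL1 (by norm_num)
          rw [h6, div_div, div_le_div_iff₀ (by positivity) (by positivity)]
          have h7 : 36 * c₂ ≤ L ^ 4 := by linarith
          calc 18 * c₂ * (N : ℝ) ^ 2 * L ^ (2 * B + 2) * (L ^ A * 2) =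
                (N : ℝ) ^ 2 * (L ^ A * L ^ (2 * B + 2)) * (36 * c₂) := by ring
            _ ≤ (N : ℝ) ^ 2 * (L ^ A * L ^ (2 * B + 2)) * L ^ 4 := mul_le_mul_of_nonneg_left h7 (by positivity)
            _ = _ := by ring
        · have h6 : (N : ℝ) * (N : ℝ) ^ (1 / 5000 : ℝ) * (N : ℝ) ^ (104 / 125 : ℝ) ≤
              (N : ℝ) ^ 2 / (N : ℝ) ^ (1 / 8 : ℝ) := by
            have e2 : (N : ℝ) ^ 2 = (N : ℝ) ^ (2 : ℝ) := by norm_num
            rw [e2, ← Real.rpow_sub hx0]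
            calc (N : ℝ) * (N : ℝ) ^ (1 / 5000 : ℝ) * (N : ℝ) ^ (104 / 125 : ℝ) =
                  (N : ℝ) ^ (1 : ℝ) * (N : ℝ) ^ (1 / 5000 : ℝ) * (N : ℝ) ^ (104 / 125 : ℝ) := by rw [Real.rpow_one]
              _ = (N : ℝ) ^ (1 + 1 / 5000 + 104 / 125 : ℝ) := by rw [← Real.rpow_add hx0, ← Real.rpow_add hx0]
              _ ≤ (N : ℝ) ^ (2 - 1 / 8 : ℝ) := Real.rpow_le_rpow_of_exponent_le hx1 (by norm_num)
          have hNp : 0 < (N : ℝ) ^ (1 / 8 : ℝ) := Real.rpow_pos_of_pos hx0 _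
          have hLA : 0 < L ^ A := pow_pos hL0 A
          calc (1 + c₂) * L ^ (C + 2 * B + 1) * (N * (N : ℝ) ^ (1 / 5000 : ℝ) * (N : ℝ) ^ (104 / 125 : ℝ))
              ≤ (1 + c₂) * L ^ (C + 2 * B + 1) * ((N : ℝ) ^ 2 / (N : ℝ) ^ (1 / 8 : ℝ)) :=
                mul_le_mul_of_nonneg_left h6 (by positivity)
            _ ≤ (N : ℝ) ^ 2 / L ^ A / 2 := by
              rw [← mul_div_assoc, div_div, div_le_div_iff₀ hNp (by positivity)]
              have h7 : (1 + c₂) * L ^ (C + 2 * B + 1) * (N : ℝ) ^ 2 * (L ^ A * 2) =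
                  (N : ℝ) ^ 2 * (2 * (1 + c₂) * L ^ (A + C + 2 * B + 1)) := by ring
              rw [h7]
              exact mul_le_mul_of_nonneg_left hP3 (by positivity)
    _ = (N : ℝ) ^ 2 / L ^ A := by ring

end Pool.Agent.XE
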